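import Pool.Agent.P.MP_a374b6_co.H.Fin

/-! Some constant `c > 1 / 2` is admissible: a clique pseudo-minor of order `n` forces a clique
minor of order `⌊c n⌋`. -/

namespace Pool.Agent.Results.MP_a374b6_co.AboveHalf

theorem result : ∃ c : ℝ, 1 / 2 < c ∧
    ∀ (V : Type) [Finite V] (G : SimpleGraph V) (n : ℕ) (A : Fin n → Set V),
      (∀ i, (A i).Nonempty) → (Pairwise fun i j => Disjoint (A i) (A j)) →
      (Pairwise fun i j => (G.induce (A i ∪ A j)).Connected) →
      ∃ N : Fin ⌊c * n⌋₊ → Set V, (∀ k, (G.induce (N k)).Connected) ∧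
        (Pairwise fun k l => Disjoint (N k) (N l)) ∧
        Pairwise fun k l => ∃ x ∈ N k, ∃ y ∈ N l, G.Adj x y :=
  Pool.Agent.P.MP_a374b6_co.H.final

end Pool.Agent.Results.MP_a374b6_co.AboveHalf
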