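import Pool.Agent.P.MP_a374b6_co.Graph

/-! A clique pseudo-minor of order `n` with `m` pseudo-nodes of at most three components
forces a clique minor of order `⌊2m/3⌋ + ⌊(n-m)/2⌋`. -/

namespace Pool.Agent.Results.MP_a374b6_co.ThreeComponents

theorem result {V : Type*} [Finite V] (G : SimpleGraph V) (n : ℕ) (A : Fin n → Set V)
    (hne : ∀ i, (A i).Nonempty)
    (hdisj : Pairwise fun i j => Disjoint (A i) (A j))
    (hconn : Pairwise fun i j => (G.induce (A i ∪ A j)).Connected)
    (m : ℕ)
    (hm : m = Set.ncard {i | Nat.card (G.induce (A i)).ConnectedComponent ≤ 3}) :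
    ∃ N : Fin (2 * m / 3 + (n - m) / 2) → Set V,
      (∀ k, (G.induce (N k)).Connected) ∧
      (Pairwise fun k l => Disjoint (N k) (N l)) ∧
      Pairwise fun k l => ∃ x ∈ N k, ∃ y ∈ N l, G.Adj x y := by
  classical
  set R1 := Finset.univ.filter
    (fun i => Nat.card (G.induce (A i)).ConnectedComponent ≤ 3) with hR1
  have e1 : R1.card = m := by
    rw [hm, ← Set.ncard_coe_finset]
    congr 1
    ext i
    simp [hR1]
  have e2 : R1ᶜ.card = n - m := by
    rw [Finset.card_compl, e1, Fintype.card_fin]
  have := Pool.Agent.P.MP_a374b6_co.graph_mixed hne hdisj hconn R1 R1ᶜ disjoint_compl_right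
    (fun i hi => (Finset.mem_filter.1 hi).2)
  rwa [e1, e2] at this

end Pool.Agent.Results.MP_a374b6_co.ThreeComponents
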